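import Pool.Agent.K6.H47.GL.Stm

/-!
# Localization of modules at primes: elements
-/

set_option autoImplicit false

open TensorProduct

universe u

namespace Pool.Agent.K6.H49.GLA

open Pool.Agent.K6.H47.GL

section

variable {R : Type u} [CommRing R] (w : Ideal R) [w.IsPrime] {X Y : Type u} [AddCommGroup X]
  [Module R X] [AddCommGroup Y] [Module R Y]

/-- the map to the localization -/
noncomputable abbrev lm (X : Type u) [AddCommGroup X] [Module R X] : X →ₗ[R] Lw w X :=
  LocalizedModule.mkLinearMap w.primeCompl X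

theorem lm_eq_zero_iff (x : X) : lm w X x = 0 ↔ ∃ c ∉ w, c • x = 0 := by
  rw [IsLocalizedModule.eq_zero_iff w.primeCompl (lm w X)]
  constructor
  · rintro ⟨c, hc⟩
    exact ⟨c, c.2, hc⟩
  · rintro ⟨c, hc, h⟩
    exact ⟨⟨c, hc⟩, h⟩

theorem lw_surj (ξ : Lw w X) : ∃ (x : X) (s : R), s ∉ w ∧ s • ξ = lm w X x := by
  obtain ⟨⟨x, s⟩, h⟩ := IsLocalizedModule.surj w.primeCompl (lm w X) ξ
  exact ⟨x, s, s.2, h⟩

theorem lw_bij (s : R) (hs : s ∉ w) : Function.Bijective fun ξ : Lw w X => s • ξ := by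
  have h := IsLocalizedModule.map_units (lm w X) (S := w.primeCompl) ⟨s, hs⟩
  exact (Module.End.isUnit_iff _).1 h

theorem lw_smul_inj {s : R} (hs : s ∉ w) {ξ : Lw w X} (h : s • ξ = 0) : ξ = 0 :=
  (lw_bij w s hs).1 (by simpa using h)

theorem one_notMem : (1 : R) ∉ w := (Ideal.ne_top_iff_one w).1 (Ideal.IsPrime.ne_top inferInstance)

theorem mul_notMem {a b : R} (ha : a ∉ w) (hb : b ∉ w) : a * b ∉ w :=
  fun h => (Ideal.IsPrime.mem_or_mem inferInstance h).elim ha hb

/-- one denominator for a finitely generated submodule which dies in the localization -/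
theorem exists_kill (K : Submodule R X) (hK : K.FG) (h : ∀ k ∈ K, lm w X k = 0) :
    ∃ s ∉ w, ∀ k ∈ K, s • k = 0 := by
  classical
  obtain ⟨T, rfl⟩ := hK
  induction T using Finset.induction_on with
  | empty =>
    refine ⟨1, one_notMem w, fun k hk => ?_⟩
    simp at hk
    simp [hk]
  | insert t T ht ih =>
    obtain ⟨s, hs, hs'⟩ := ih fun k hk =>
      h k (Submodule.span_mono (by simp) hk)
    obtain ⟨c, hc, hct⟩ := (lm_eq_zero_iff w t).1 (h t (Submodule.subset_span (by simp)))
    refine ⟨c * s, mul_notMem w hc hs, fun k hk => ?_⟩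
    rw [Finset.coe_insert, Submodule.mem_span_insert] at hk
    obtain ⟨a, z, hz, rfl⟩ := hk
    rw [smul_add, mul_smul, mul_smul, hs' z hz, smul_zero, add_zero, smul_comm s a t,
      smul_comm c a (s • t), smul_comm c s t, hct, smul_zero, smul_zero]

end

end Pool.Agent.K6.H49.GLA
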