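import Pool.Agent.K6.H49.GLA.Loc

/-!
# Localization of modules at primes: maps
-/

set_option autoImplicit false

open TensorProduct

universe u

namespace Pool.Agent.K6.H49.GLA

open Pool.Agent.K6.H47.GL

section

variable {R : Type u} [CommRing R] (w : Ideal R) [w.IsPrime] {X Y Z : Type u} [AddCommGroup X]
  [Module R X] [AddCommGroup Y] [Module R Y] [AddCommGroup Z] [Module R Z]

theorem lmap_lm (f : X →ₗ[R] Y) (x : X) : Lmap w f (lm w X x) = lm w Y (f x) :=
  IsLocalizedModule.map_apply w.primeCompl _ _ f x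

/-- maps on the localization which agree on the elements of the module agree -/
theorem lw_ext {f g : Lw w X →ₗ[R] Lw w Y} (h : ∀ x, f (lm w X x) = g (lm w X x)) : f = g := by
  apply LinearMap.ext
  intro ξ
  obtain ⟨x, s, hs, hx⟩ := lw_surj w ξ
  refine (lw_bij w s hs).1 ?_
  show s • f ξ = s • g ξ
  rw [← map_smul, ← map_smul, hx, h]

theorem lmap_lsmul (x : R) : Lmap w (LinearMap.lsmul R X x) = LinearMap.lsmul R (Lw w X) x := by
  apply lw_ext
  intro z
  rw [lmap_lm]
  show lm w X (x • z) = x • lm w X z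
  rw [map_smul]

theorem lmap_ses {f : X →ₗ[R] Y} {g : Y →ₗ[R] Z} (h : SES f g) : SES (Lmap w f) (Lmap w g) where
  inj := IsLocalizedModule.map_injective w.primeCompl _ _ f h.inj
  exact := IsLocalizedModule.map_exact w.primeCompl _ _ _ f g h.exact
  surj := IsLocalizedModule.map_surjective w.primeCompl _ _ g h.surj

/-- equivalences on the localization -/
noncomputable def lequiv (e : X ≃ₗ[R] Y) : Lw w X ≃ₗ[R] Lw w Y :=
  LinearEquiv.ofLinearMap (Lmap w e.toLinearMap) (Lmap w e.symm.toLinearMap)
    (lw_ext w fun x => by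
      rw [LinearMap.comp_apply, lmap_lm, lmap_lm]
      simp)
    (lw_ext w fun x => by
      rw [LinearMap.comp_apply, lmap_lm, lmap_lm]
      simp)

end

end Pool.Agent.K6.H49.GLA
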